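import Mathlib
import Pool.Agent.Q19.Fre.Bridge2

/-!
The weak bidimension of a biflat Fréchet algebra is at most two (Q1, answered in the affirmative).

The definitions used in the statement are in `Pool.Agent.Q19.FreS.Stmt2`,
`Pool.Agent.Q19.FreS.Stmt` and `Pool.Agent.Helper5.Polynormed`.
-/

set_option autoImplicit false

namespace Pool.Agent.Results.MP_afeff1_an.WeakBidimension

open Pool.Agent.Helper5 Pool.Agent.Q19.FreS Pool.Agent.Q19.Fre

universe u

/-- Let `A` be a biflat Fréchet algebra. Then `wdb A ≤ 2`. (The first part of the statement says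
that all the tensor products `N ⊗̂_{A^e} Z` of bimodules exist.) -/
theorem result (A : Type u) [NonUnitalRing A] [Module ℂ A] [UniformSpace A] [IsFre A]
    (hA : IsFreAlg A) :
    (∀ N Z : FM.{u, u} (A ⊕ A), Nonempty (Tensor N.swap Z)) ∧
    (FlatB A (regular hA) → wdb hA ≤ 2) :=
  ⟨fun N Z => ⟨model (toF N.swap) (toF Z)⟩, wdb_le_two hA⟩

end Pool.Agent.Results.MP_afeff1_an.WeakBidimension
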